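import Pool.Agent.H4.FCB.KAPP
import Pool.Agent.H61.FCB.XNUM

/-!
PRSX: presentation of the unimodular chart rings of `X`.
-/

open MvPolynomial

namespace FCB

namespace PRSX

/-- evaluation: units become `1` -/
noncomputable def ev (c : ChX) :
    MvPolynomial CX ℂ →ₐ[ℂ] MvPolynomial {j : CX // j ∉ uX c} ℂ :=
  aeval (fun j => if h : j ∈ uX c then (1 : MvPolynomial {j : CX // j ∉ uX c} ℂ) else X ⟨j, h⟩)

lemma ev_unit (c : ChX) (j : CX) (hj : j ∈ uX c) : ev c (X j) = 1 := by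
  rw [ev, aeval_X, dif_pos hj]

lemma ev_non (c : ChX) (j : {j : CX // j ∉ uX c}) : ev c (X j.1) = X j := by
  rw [ev, aeval_X, dif_neg j.2]

lemma ev_FX (c : ChX) : ev c FX = FXc c := rfl

section

variable [IsDomain RX]

/-- the presentation -/
noncomputable def ph (c : ChX) : MvPolynomial {j : CX // j ∉ uX c} ℂ →ₐ[ℂ] FractionRing RX :=
  aeval (fun j => DX.co c j.1)

lemma ph_X (c : ChX) (j : {j : CX // j ∉ uX c}) : ph c (X j) = DX.co c j.1 := by
  rw [ph, aeval_X]

lemma ph_ev (c : ChX) (hc : c.2.2 ≠ 4) (P : MvPolynomial CX ℂ) :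
    ph c (ev c P) = aeval (DX.co c) P := by
  have h : (ph c).comp (ev c) = aeval (DX.co c) := by
    apply MvPolynomial.algHom_ext
    intro j
    rw [AlgHom.comp_apply, aeval_X]
    by_cases hj : j ∈ uX c
    · rw [ev_unit c j hj, map_one, KAPP.co_unit c hc j hj]
    · rw [show ev c (X j) = X ⟨j, hj⟩ from ev_non c ⟨j, hj⟩, ph_X]
  rw [← h]
  rfl

/-- the quotient map followed by the embedding in the fraction field -/
noncomputable def al : MvPolynomial CX ℂ →ₐ[ℂ] FractionRing RX :=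
  aeval (fun j => algebraMap RX (FractionRing RX) (DX.X j))

omit [IsDomain RX] in
lemma al_eq (P : MvPolynomial CX ℂ) :
    al P = algebraMap RX (FractionRing RX) (Ideal.Quotient.mk _ P) := by
  have h2 : al = (IsScalarTower.toAlgHom ℂ RX (FractionRing RX)).comp
      (Ideal.Quotient.mkₐ ℂ (Ideal.span {FX})) := by
    apply MvPolynomial.algHom_ext
    intro j
    rw [al, aeval_X]
    rfl
  rw [h2]
  rfl

omit [IsDomain RX] in
lemma sigma_u (c : ChX) (n : CX → ℕ) (hc : c.2.2 ≠ 4) (hn : ∀ j, n j ≠ 0 → j ∈ uX c) :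
    sigmaX c (DX.wt n) = fun j => (n j : ℤ) := by
  have h1 : sigmaX c (DX.wt n) = ∑ j, n j • sigmaX c (degX j) := by
    have : DX.wt n = ∑ j, n j • degX j := by
      rw [Cox.wt]
      refine Finset.sum_congr rfl fun j _ => ?_
      rw [natCast_zsmul]
      rfl
    rw [this]
    change sgX c _ = ∑ j, n j • sgX c (degX j)
    rw [map_sum]
    refine Finset.sum_congr rfl fun j _ => ?_
    rw [map_nsmul]
  rw [h1]
  funext i
  rw [Finset.sum_apply, Finset.sum_eq_single i]
  · by_cases h : n i = 0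
    · simp [h]
    · rw [Pi.smul_apply, KAPP.uni c hc i (hn i h)]
      simp
  · intro j _ hj
    by_cases h : n j = 0
    · simp [h]
    · rw [Pi.smul_apply, KAPP.uni c hc j (hn j h)]
      simp [Ne.symm hj]
  · simp

lemma co_range (c : ChX) (hc : c.2.2 ≠ 4) (j : CX) : DX.co c j ∈ (ph c).range := by
  by_cases hj : j ∈ uX c
  · rw [KAPP.co_unit c hc j hj]
    exact one_mem _
  · exact ⟨X ⟨j, hj⟩, ph_X c ⟨j, hj⟩⟩

lemma gr_range (c : ChX) (hc : c.2.2 ≠ 4) (g : Fin 5 → ℤ) (a : RX) (ha : a ∈ DX.gr g) :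
    algebraMap RX (FractionRing RX) a * DX.monoZ (-(sigmaX c g)) ∈ (ph c).range := by
  rw [Cox.gr] at ha
  induction ha using Submodule.span_induction with
  | mem x hx =>
    obtain ⟨n, hn, rfl⟩ := hx
    have hn' : DX.wt n = g := hn
    subst hn'
    rw [← Cox.monoZ_cast, ← KAPP.prod_co c n, mul_assoc, mul_comm (DX.monoZ _),
      KAPP.mZ_neg_mul, mul_one]
    exact Subalgebra.prod_mem _ fun j _ => pow_mem (co_range c hc j) _
  | zero => rw [map_zero, zero_mul]; exact zero_mem _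
  | add x y _ _ hx hy => rw [map_add, add_mul]; exact add_mem hx hy
  | smul z x _ hx =>
    have h1 : algebraMap RX (FractionRing RX) (z • x) = z • algebraMap RX (FractionRing RX) x :=
      map_smul (IsScalarTower.toAlgHom ℂ RX (FractionRing RX)) z x
    rw [h1, smul_mul_assoc]
    exact Subalgebra.smul_mem _ hx z

lemma co_mem (c : ChX) (j : CX) : DX.co c j ∈ DX.chart c := by
  set s : CX → ℤ := sigmaX c (degX j) with hs
  have hsupp : ∀ i, s i ≠ 0 → i ∈ uX c := fun i => XNUM.sigma_supp c (degX j) i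
  have hwt : DX.wtZ s = degX j := XNUM.sigma_wt c (degX j)
  set p : CX → ℕ := fun i => (s i).toNat with hp
  set q : CX → ℕ := fun i => (-s i).toNat with hq
  have hpq : (fun i => (p i : ℤ)) = s + (fun i => (q i : ℤ)) := by
    funext i
    simp only [hp, hq, Pi.add_apply]
    omega
  refine ⟨p, DX.X j * DX.mono q, ?_, ?_, ?_⟩
  · intro i hi
    refine hsupp i ?_
    intro h
    exact hi (by simp [hp, h])
  · have h1 : DX.wt p = degX j + DX.wt q := by
      rw [← DX.wtZ_cast, hpq, DX.wtZ_add, hwt, DX.wtZ_cast]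
    rw [h1]
    exact DX.mul_mem (DX.X_mem j) (DX.mono_mem q)
  · rw [map_mul, ← Cox.monoZ_cast, ← Cox.monoZ_cast, hpq, KAPP.mZ_add, ← mul_assoc, ← KAPP.co_mul c j]

lemma mZ_u (c : ChX) (s : CX → ℤ) (hs : ∀ i, s i ≠ 0 → i ∈ uX c) :
    DX.monoZ s = ∏ i ∈ uX c, algebraMap RX (FractionRing RX) (DX.X i) ^ s i := by
  rw [Cox.monoZ]
  symm
  refine Finset.prod_subset (Finset.subset_univ _) fun i _ hi => ?_
  have : s i = 0 := by
    by_contra h
    exact hi (hs i h)
  rw [this, zpow_zero]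

lemma homog (c : ChX) (p : MvPolynomial {j : CX // j ∉ uX c} ℂ) :
    ∃ N₀ : ℕ, ∀ N, N₀ ≤ N → ∃ P : MvPolynomial CX ℂ, ev c P = p ∧
      al P = ph c p * (∏ i ∈ uX c, algebraMap RX (FractionRing RX) (DX.X i)) ^ N := by
  induction p using MvPolynomial.induction_on with
  | C a =>
    refine ⟨0, fun N _ => ⟨C a * (∏ i ∈ uX c, X i) ^ N, ?_, ?_⟩⟩
    · rw [map_mul, map_pow, map_prod, Finset.prod_congr rfl fun i hi => ev_unit c i hi,
        Finset.prod_const_one, one_pow, mul_one, ← algebraMap_eq, AlgHom.commutes, algebraMap_eq]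
    · rw [map_mul, map_pow, map_prod]
      congr 1
      · rw [← algebraMap_eq, ← algebraMap_eq, AlgHom.commutes, AlgHom.commutes]
      · congr 1
        refine Finset.prod_congr rfl fun i _ => ?_
        rw [al, aeval_X]
  | add p q hp hq =>
    obtain ⟨N₁, h1⟩ := hp
    obtain ⟨N₂, h2⟩ := hq
    refine ⟨max N₁ N₂, fun N hN => ?_⟩
    obtain ⟨P, hP, hP'⟩ := h1 N (le_trans (le_max_left _ _) hN)
    obtain ⟨Q, hQ, hQ'⟩ := h2 N (le_trans (le_max_right _ _) hN)
    exact ⟨P + Q, by rw [map_add, hP, hQ], by rw [map_add, hP', hQ', map_add, add_mul]⟩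
  | mul_X p j hp =>
    obtain ⟨N₁, h1⟩ := hp
    set s : CX → ℤ := sigmaX c (degX j.1) with hs
    have hsupp : ∀ i, s i ≠ 0 → i ∈ uX c := fun i => XNUM.sigma_supp c (degX j.1) i
    obtain ⟨K, hK⟩ : ∃ K : ℕ, ∀ i, s i ≤ K := by
      refine ⟨∑ i, (s i).toNat, fun i => ?_⟩
      have h2 : (s i).toNat ≤ ∑ i, (s i).toNat :=
        Finset.single_le_sum (f := fun i => (s i).toNat) (fun _ _ => Nat.zero_le _)
          (Finset.mem_univ i)
      omega
    refine ⟨N₁ + K, fun N hN => ?_⟩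
    obtain ⟨P, hP, hP'⟩ := h1 (N - K) (by omega)
    refine ⟨P * (X j.1 * ∏ i ∈ uX c, X i ^ (K - s i).toNat), ?_, ?_⟩
    · rw [map_mul, map_mul, hP, ev_non, map_prod]
      have h3 : ∀ i ∈ uX c, ev c (X i ^ (K - s i).toNat) = 1 := by
        intro i hi
        rw [map_pow, ev_unit c i hi, one_pow]
      rw [Finset.prod_congr rfl h3, Finset.prod_const_one, mul_one]
    · rw [map_mul, hP', map_mul, map_mul, ph_X, map_prod]
      have h3 : al (X j.1) = DX.co c j.1 * DX.monoZ s := by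
        rw [al, aeval_X, hs, KAPP.co_mul]
      have h4 : (∏ i ∈ uX c, al (X i ^ (K - s i).toNat)) * DX.monoZ s =
          (∏ i ∈ uX c, algebraMap RX (FractionRing RX) (DX.X i)) ^ K := by
        rw [mZ_u c s hsupp, ← Finset.prod_mul_distrib, ← Finset.prod_pow]
        refine Finset.prod_congr rfl fun i _ => ?_
        rw [map_pow, al, aeval_X, ← zpow_natCast, ← zpow_natCast, ← zpow_add₀ (KAPP.xF_ne i)]
        congr 1
        have := hK i
        omega
      have h5 : (∏ i ∈ uX c, algebraMap RX (FractionRing RX) (DX.X i)) ^ N =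
          (∏ i ∈ uX c, algebraMap RX (FractionRing RX) (DX.X i)) ^ (N - K) *
          (∏ i ∈ uX c, algebraMap RX (FractionRing RX) (DX.X i)) ^ K := by
        rw [← pow_add]
        congr 1
        omega
      rw [h3, h5, ← h4]
      ring

lemma ph_FXc (c : ChX) (hc : c.2.2 ≠ 4) : ph c (FXc c) = 0 := by
  rw [← ev_FX, ph_ev c hc, KAPP.FX_eq]
  have h0 := (kapp).1
  have h1 : (∑ k, cF k • ∏ j, DX.co c j ^ KAPP.ex k j) * DX.monoZ (sigmaX c ![0, 0, 0, 0, 2]) =
      0 := by
    rw [Finset.sum_mul, ← h0]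
    refine Finset.sum_congr rfl fun k _ => ?_
    rw [smul_mul_assoc, ← KAPP.wt_ex k, KAPP.prod_co, KAPP.ex_cast]
  rcases mul_eq_zero.1 h1 with h2 | h2
  · exact h2
  · exfalso
    have h3 := KAPP.mZ_neg_mul (sigmaX c ![0, 0, 0, 0, 2])
    rw [h2, mul_zero] at h3
    exact zero_ne_one h3

end

end PRSX

open PRSX in
theorem prsx : S_PRSX := by
  intro _ c hc
  refine ⟨ph c, ph_X c, ?_, ?_⟩
  · apply le_antisymm
    · rw [ph, ← Algebra.adjoin_range_eq_range_aeval, Algebra.adjoin_le_iff]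
      rintro _ ⟨j, rfl⟩
      exact co_mem c j.1
    · rintro f ⟨n, a, hn, ha, hf⟩
      have h1 := gr_range c hc _ a ha
      rw [sigma_u c n hc hn, ← hf, ← Cox.monoZ_cast, mul_assoc, mul_comm (DX.monoZ _),
        KAPP.mZ_neg_mul, mul_one] at h1
      exact h1
  · apply le_antisymm
    · intro p hp
      have hp0 : ph c p = 0 := hp
      obtain ⟨N, hN⟩ := homog c p
      obtain ⟨P, hP, hP'⟩ := hN N le_rfl
      rw [hp0, zero_mul, al_eq, FaithfulSMul.algebraMap_eq_zero_iff,
        Ideal.Quotient.eq_zero_iff_mem, Ideal.mem_span_singleton] at hP'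
      rw [Ideal.mem_span_singleton, ← hP, ← ev_FX]
      exact map_dvd (ev c) hP'
    · rw [Ideal.span_le]
      intro q hq
      rw [Set.mem_singleton_iff] at hq
      subst hq
      exact ph_FXc c hc

end FCB
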